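import Mathlib

set_option autoImplicit false

namespace Pool.Agent.Lib.MP_ccbe9b_lc

/-- Boolean functions of arbitrary finite arity. -/
abbrev BoolFun : Type := Σ n : ℕ, ((Fin n → Bool) → Bool)

/-- The clone generated by a set of Boolean functions. -/
inductive InClone (B : Set BoolFun) : BoolFun → Prop
  | proj (n : ℕ) (i : Fin n) : InClone B ⟨n, fun x => x i⟩
  | comp (f : BoolFun) (hf : f ∈ B) (n : ℕ) (g : Fin f.1 → ((Fin n → Bool) → Bool))
      (hg : ∀ j, InClone B ⟨n, g j⟩) : InClone B ⟨n, fun x => f.2 (fun j => g j x)⟩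

/-- The binary disjunction and the two constants. -/
def orBase : Set BoolFun :=
  {⟨2, fun x => x 0 || x 1⟩, ⟨0, fun _ => false⟩, ⟨0, fun _ => true⟩}

/-- `[B] = V`: the functions of positive arity in the clone of `B` are those in the clone of
`{∨, 0, 1}`. -/
def CloneIsV (B : Set BoolFun) : Prop :=
  ∀ n : ℕ, 0 < n → ∀ g : (Fin n → Bool) → Bool, InClone B ⟨n, g⟩ ↔ InClone orBase ⟨n, g⟩

/-- Every argument of every function in `B` is essential. -/
def NoFictitious (B : Set BoolFun) : Prop :=
  ∀ f ∈ B, ∀ j : Fin f.1, ∃ x y : Fin f.1 → Bool, (∀ i, i ≠ j → x i = y i) ∧ f.2 x ≠ f.2 y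

/-- Formulas of the language `({◇, □, ↓}, B)`. -/
inductive Form (B : Finset BoolFun) : Type
  | atom (k : ℕ) : Form B
  | nom (k : ℕ) : Form B
  | svar (k : ℕ) : Form B
  | app (f : BoolFun) (hf : f ∈ B) (args : Fin f.1 → Form B) : Form B
  | dia (φ : Form B) : Form B
  | box (φ : Form B) : Form B
  | down (x : ℕ) (φ : Form B) : Form B

/-- The formula does not contain `□`, i.e. it belongs to the language `({◇, ↓}, B)`. -/
def BoxFree {B : Finset BoolFun} : Form B → Prop
  | .atom _ => True
  | .nom _ => True
  | .svar _ => True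
  | .app _ _ args => ∀ j, BoxFree (args j)
  | .dia φ => BoxFree φ
  | .box _ => False
  | .down _ φ => BoxFree φ

/-- A Kripke model on the set `W`: relation, valuation of the atoms, and one state for each
nominal. -/
structure Model (W : Type) where
  R : W → W → Prop
  V : ℕ → W → Prop
  N : ℕ → W

/-- Truth of a formula at a state `w` under an assignment `g`. -/
def Sat {B : Finset BoolFun} {W : Type} (M : Model W) : Form B → (ℕ → W) → W → Prop
  | .atom k, _, w => M.V k w
  | .nom k, _, w => w = M.N k
  | .svar k, g, w => w = g k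
  | .app f _ args, g, w => ∃ b : Fin f.1 → Bool, (∀ j, b j = true ↔ Sat M (args j) g w) ∧
      f.2 b = true
  | .dia φ, g, w => ∃ v, M.R w v ∧ Sat M φ g v
  | .box φ, g, w => ∀ v, M.R w v → Sat M φ g v
  | .down x φ, g, w => Sat M φ (Function.update g x w) w

/-- `F`-SAT for a class `F` of frames: truth at some state of some model over a frame in `F`,
under some assignment. -/
def Satisfiable (F : ∀ W : Type, (W → W → Prop) → Prop) {B : Finset BoolFun} (φ : Form B) :
    Prop :=
  ∃ (W : Type) (M : Model W) (g : ℕ → W) (w : W), F W M.R ∧ Sat M φ g w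

/-- The symbols used to write formulas in Polish notation; indices of atoms, nominals and state
variables are written in binary with the symbols `bit b`. -/
inductive Sym (B : Finset BoolFun) : Type
  | atom : Sym B
  | nom : Sym B
  | svar : Sym B
  | conn (f : BoolFun) (hf : f ∈ B) : Sym B
  | dia : Sym B
  | box : Sym B
  | down : Sym B
  | bit (b : Bool) : Sym B

/-- Binary digits as symbols. -/
def bits {B : Finset BoolFun} (k : ℕ) : List (Sym B) := (Nat.bits k).map Sym.bit

/-- Polish notation. -/
def word {B : Finset BoolFun} : Form B → List (Sym B)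
  | .atom k => Sym.atom :: bits k
  | .nom k => Sym.nom :: bits k
  | .svar k => Sym.svar :: bits k
  | .app f hf args => Sym.conn f hf :: (List.ofFn (fun j => word (args j))).flatten
  | .dia φ => Sym.dia :: word φ
  | .box φ => Sym.box :: word φ
  | .down x φ => Sym.down :: (bits x ++ word φ)

/-- Replace the symbol `□` by the word `u` and keep every other symbol. -/
def replaceBox {B : Finset BoolFun} (u : List (Sym B)) : Sym B → List (Sym B)
  | .box => u
  | .atom => [.atom]
  | .nom => [.nom]
  | .svar => [.svar]
  | .conn f hf => [.conn f hf]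
  | .dia => [.dia]
  | .down => [.down]
  | .bit b => [.bit b]

/-- Binary encoding obtained from a block code of length `m` for the symbols. -/
def encode {B : Finset BoolFun} {m : ℕ} (code : Sym B → Fin m → Bool) (φ : Form B) :
    List Bool :=
  (word φ).flatMap (fun s => List.ofFn (code s))

/-- Boolean circuits (formulas) with unbounded fan-in on `n` input bits; `lit i b` is true when
input bit `i` equals `b`. -/
inductive Circuit (n : ℕ) : Type
  | lit (i : Fin n) (b : Bool) : Circuit n
  | and (k : ℕ) (c : Fin k → Circuit n) : Circuit n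
  | or (k : ℕ) (c : Fin k → Circuit n) : Circuit n

/-- Depth of a circuit. -/
def Circuit.depth {n : ℕ} : Circuit n → ℕ
  | .lit _ _ => 0
  | .and _ c => 1 + Finset.univ.sup (fun j => (c j).depth)
  | .or _ c => 1 + Finset.univ.sup (fun j => (c j).depth)

/-- Number of gates (and literals) of a circuit. -/
def Circuit.size {n : ℕ} : Circuit n → ℕ
  | .lit _ _ => 1
  | .and _ c => 1 + ∑ j, (c j).size
  | .or _ c => 1 + ∑ j, (c j).size

/-- Value of a circuit on an input. -/
def Circuit.Eval {n : ℕ} (x : Fin n → Bool) : Circuit n → Prop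
  | .lit i b => x i = b
  | .and _ c => ∀ j, (c j).Eval x
  | .or _ c => ∃ j, (c j).Eval x

/-- The property `P` of formulas is decided, on encodings of formulas, by circuits of constant
depth and polynomial size. -/
def InAC0 {B : Finset BoolFun} {m : ℕ} (code : Sym B → Fin m → Bool) (P : Form B → Prop) :
    Prop :=
  ∃ (d : ℕ) (p : Polynomial ℕ), ∀ n : ℕ, ∃ C : Circuit n, C.depth ≤ d ∧ C.size ≤ p.eval n ∧
    ∀ (φ : Form B) (h : (encode code φ).length = n),
      C.Eval (fun i => (encode code φ).get (i.cast h.symm)) ↔ P φ

end Pool.Agent.Lib.MP_ccbe9b_lc
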