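import Mathlib
import Pool.Agent.Lib.MP_ccbe9b_lc.Defs

set_option autoImplicit false

namespace Pool.Agent.Lib.MP_ccbe9b_lc

/-! ### Shape of the functions in `B` -/

/-- `f` is a constant or the disjunction of some of its arguments. -/
def VForm (f : BoolFun) : Prop :=
  ∃ (c : Bool) (S : Set (Fin f.1)), ∀ x, f.2 x = true ↔ (c = true ∨ ∃ j ∈ S, x j = true)

theorem vform_of_orBase {f : BoolFun} (h : InClone orBase f) : VForm f := by
  induction h with
  | proj n i => exact ⟨false, {i}, fun x => by simp⟩
  | comp f hf n g hg ih =>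
    rcases hf with rfl | rfl | rfl
    · obtain ⟨c0, S0, h0⟩ := ih 0
      obtain ⟨c1, S1, h1⟩ := ih 1
      refine ⟨c0 || c1, S0 ∪ S1, fun x => ?_⟩
      have h0x := h0 x
      have h1x := h1 x
      simp only at h0x h1x
      simp only [Bool.or_eq_true, h0x, h1x, Set.mem_union]
      constructor
      · rintro ((h | ⟨j, hj, h⟩) | (h | ⟨j, hj, h⟩))
        · exact Or.inl (Or.inl h)
        · exact Or.inr ⟨j, Or.inl hj, h⟩
        · exact Or.inl (Or.inr h)
        · exact Or.inr ⟨j, Or.inr hj, h⟩
      · rintro ((h | h) | ⟨j, hj | hj, h⟩)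
        · exact Or.inl (Or.inl h)
        · exact Or.inr (Or.inl h)
        · exact Or.inl (Or.inr ⟨j, hj, h⟩)
        · exact Or.inr (Or.inr ⟨j, hj, h⟩)
    · exact ⟨false, ∅, fun x => by simp⟩
    · exact ⟨true, ∅, fun x => by simp⟩

theorem vform_of_mem {B : Set BoolFun} (hB : CloneIsV B) {f : BoolFun} (hf : f ∈ B) :
    VForm f := by
  obtain ⟨n, h⟩ := f
  rcases Nat.eq_zero_or_pos n with rfl | hn
  · refine ⟨h Fin.elim0, ∅, fun x => ?_⟩
    have : x = Fin.elim0 := Subsingleton.elim _ _
    simp [this]
  · have h1 : InClone B ⟨n, fun x => h (fun j => x j)⟩ :=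
      InClone.comp ⟨n, h⟩ hf n (fun j x => x j) (fun j => InClone.proj n j)
    exact vform_of_orBase ((hB n hn _).1 h1)

theorem mono_of_vform {f : BoolFun} (hf : VForm f) {x y : Fin f.1 → Bool}
    (hxy : ∀ j, x j = true → y j = true) (hx : f.2 x = true) : f.2 y = true := by
  obtain ⟨c, S, h⟩ := hf
  rw [h] at hx ⊢
  rcases hx with hc | ⟨j, hj, hxj⟩
  · exact Or.inl hc
  · exact Or.inr ⟨j, hj, hxy j hxj⟩

/-! ### Satisfiability -/

/-- The value of a formula when all leaves and all boxed formulas count as true. -/
def Good {B : Finset BoolFun} : Form B → Prop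
  | .atom _ => True
  | .nom _ => True
  | .svar _ => True
  | .app f _ args => ∃ b : Fin f.1 → Bool, (∀ j, b j = true → Good (args j)) ∧ f.2 b = true
  | .dia φ => Good φ
  | .box _ => True
  | .down _ φ => Good φ

/-- The one-point reflexive model in which everything holds. -/
def onePoint : Model Unit := ⟨fun _ _ => True, fun _ _ => True, fun _ => ()⟩

/-- The natural numbers with the converse of the strict order. -/
def chain : Model ℕ := ⟨fun a b => b < a, fun _ _ => True, fun _ => 0⟩

theorem good_of_sat {B : Finset BoolFun} {W : Type} (M : Model W) (φ : Form B) :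
    ∀ (g : ℕ → W) (w : W), Sat M φ g w → Good φ := by
  induction φ with
  | atom k => intro _ _ _; trivial
  | nom k => intro _ _ _; trivial
  | svar k => intro _ _ _; trivial
  | app f hf args ih =>
    rintro g w ⟨b, hb, h⟩
    exact ⟨b, fun j hj => ih j g w ((hb j).1 hj), h⟩
  | dia φ ih =>
    rintro g w ⟨v, _, hv⟩
    exact ih g v hv
  | box φ ih => intro _ _ _; trivial
  | down x φ ih =>
    intro g w h
    exact ih _ _ h

theorem sat_app_of {B : Finset BoolFun} (hB : CloneIsV (B : Set BoolFun)) {W : Type}
    (M : Model W) (f : BoolFun) (hf : f ∈ B) (args : Fin f.1 → Form B) (g : ℕ → W) (w : W)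
    (b : Fin f.1 → Bool) (hb : ∀ j, b j = true → Sat M (args j) g w) (h : f.2 b = true) :
    Sat M (.app f hf args) g w := by
  classical
  refine ⟨fun j => decide (Sat M (args j) g w), fun j => by simp, ?_⟩
  exact mono_of_vform (vform_of_mem hB (Finset.mem_coe.2 hf)) (fun j hj => by simpa using hb j hj) h

theorem sat_of_good {B : Finset BoolFun} (hB : CloneIsV (B : Set BoolFun)) (φ : Form B) :
    Good φ → (∀ (g : ℕ → Unit) (w : Unit), Sat onePoint φ g w) ∨
      ∃ n : ℕ, ∀ g : ℕ → ℕ, Sat chain φ g n := by
  classical
  induction φ with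
  | atom k => intro _; left; intro _ _; trivial
  | nom k => intro _; left; intro _ _; rfl
  | svar k => intro _; left; intro _ _; rfl
  | app f hf args ih =>
    rintro ⟨b, hb, h⟩
    obtain ⟨c, S, hS⟩ := vform_of_mem hB (Finset.mem_coe.2 hf)
    rcases (hS b).1 h with hc | ⟨j, hj, hbj⟩
    · left
      intro g w
      refine sat_app_of hB onePoint f hf args g w (fun _ => false) (fun j hj => by simp at hj) ?_
      exact (hS _).2 (Or.inl hc)
    · have hval : f.2 (fun i => decide (i = j)) = true := (hS _).2 (Or.inr ⟨j, hj, by simp⟩)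
      rcases ih j (hb j hbj) with h1 | ⟨n, h1⟩
      · left
        intro g w
        refine sat_app_of hB onePoint f hf args g w _ (fun i hi => ?_) hval
        have : i = j := by simpa using hi
        rw [this]; exact h1 g w
      · right
        refine ⟨n, fun g => ?_⟩
        refine sat_app_of hB chain f hf args g n _ (fun i hi => ?_) hval
        have : i = j := by simpa using hi
        rw [this]; exact h1 g
  | dia φ ih =>
    intro h
    rcases ih h with h1 | ⟨n, h1⟩
    · left
      intro g w
      exact ⟨(), trivial, h1 g ()⟩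
    · right
      exact ⟨n + 1, fun g => ⟨n, Nat.lt_succ_self n, h1 g⟩⟩
  | box φ ih =>
    intro _
    right
    exact ⟨0, fun g v hv => absurd hv (Nat.not_lt_zero v)⟩
  | down x φ ih =>
    intro h
    rcases ih h with h1 | ⟨n, h1⟩
    · left
      intro g w
      exact h1 _ _
    · right
      exact ⟨n, fun g => h1 _⟩

theorem satisfiable_iff {B : Finset BoolFun} (hB : CloneIsV (B : Set BoolFun))
    (F : ∀ W : Type, (W → W → Prop) → Prop) (hF1 : F Unit (fun _ _ => True))
    (hF2 : F ℕ (fun a b => b < a)) (φ : Form B) : Satisfiable F φ ↔ Good φ := by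
  constructor
  · rintro ⟨W, M, g, w, _, h⟩
    exact good_of_sat M φ g w h
  · intro h
    rcases sat_of_good hB φ h with h1 | ⟨n, h1⟩
    · exact ⟨Unit, onePoint, fun _ => (), (), hF1, h1 _ _⟩
    · exact ⟨ℕ, chain, fun _ => 0, n, hF2, h1 _⟩

/-! ### Replacing boxed subformulas -/

theorem flatMap_flatten' {α β : Type} (L : List (List α)) (f : α → List β) :
    L.flatten.flatMap f = (L.map (fun l => l.flatMap f)).flatten := by
  induction L with
  | nil => rfl
  | cons a L ih => simp [List.flatMap_append, ih]

theorem exists_term {B : Set BoolFun} {B' : Finset BoolFun} (hBB : (B' : Set BoolFun) = B)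
    {f : BoolFun} (h : InClone B f) :
    ∀ L : Fin f.1 → Form B', (∀ j, BoxFree (L j)) → ∃ T : Form B', BoxFree T ∧
      ∀ (W : Type) (M : Model W) (g : ℕ → W) (w : W) (b : Fin f.1 → Bool),
        (∀ j, b j = true ↔ Sat M (L j) g w) → (Sat M T g w ↔ f.2 b = true) := by
  classical
  induction h with
  | proj n i =>
    intro L hL
    exact ⟨L i, hL i, fun W M g w b hb => (hb i).symm⟩
  | comp f hf n g hg ih =>
    intro L hL
    choose T hT1 hT2 using fun j => ih j L hL
    have hf' : f ∈ B' := by rw [← Finset.mem_coe, hBB]; exact hf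
    refine ⟨.app f hf' T, hT1, fun W M g' w b hb => ?_⟩
    constructor
    · rintro ⟨b', hb', h⟩
      have : b' = fun j => g j b := by
        funext j
        rw [Bool.eq_iff_iff, hb' j]
        exact hT2 j W M g' w b hb
      rw [this] at h
      exact h
    · intro h
      exact ⟨fun j => g j b, fun j => (hT2 j W M g' w b hb).symm, h⟩

/-- Some function in `B` has two different essential arguments. -/
theorem exists_binary {B : Set BoolFun} (hB : CloneIsV B) :
    ∃ f ∈ B, ∃ i j : Fin f.1, i ≠ j ∧ ∀ x : Fin f.1 → Bool,
      (x i = true ∨ x j = true) → f.2 x = true := by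
  by_contra hcon
  push Not at hcon
  -- all functions in the clone are constants or projections
  have key : ∀ f : BoolFun, InClone B f → ∃ (c : Bool) (S : Set (Fin f.1)), S.Subsingleton ∧
      ∀ x, f.2 x = true ↔ (c = true ∨ ∃ j ∈ S, x j = true) := by
    intro f hf
    induction hf with
    | proj n i => exact ⟨false, {i}, Set.subsingleton_singleton, fun x => by simp⟩
    | comp f hf n g hg ih =>
      obtain ⟨c, S, hS⟩ := vform_of_mem hB hf
      by_cases hc : c = true
      · refine ⟨true, ∅, Set.subsingleton_empty, fun x => ?_⟩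
        simp only [true_or, iff_true]
        exact (hS _).2 (Or.inl hc)
      · have hSs : S.Subsingleton := by
          intro i hi j hj
          by_contra hij
          obtain ⟨x, hx, hx2⟩ := hcon f hf i j hij
          apply hx2
          rw [hS]
          rcases hx with h | h
          · exact Or.inr ⟨i, hi, h⟩
          · exact Or.inr ⟨j, hj, h⟩
        rcases S.eq_empty_or_nonempty with hE | ⟨j, hj⟩
        · refine ⟨false, ∅, Set.subsingleton_empty, fun x => ?_⟩
          have := hS (fun j => g j x)
          rw [hE] at this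
          simpa [hc] using this
        · obtain ⟨c', S', h1, h2⟩ := ih j
          refine ⟨c', S', h1, fun x => ?_⟩
          rw [← h2 x]
          have h3 := hS (fun j => g j x)
          rw [h3]
          constructor
          · rintro (h | ⟨i, hi, h⟩)
            · exact absurd h hc
            · rwa [hSs hi hj] at h
          · intro h
            exact Or.inr ⟨j, hj, h⟩
  have hor : InClone B ⟨2, fun x => x 0 || x 1⟩ := by
    rw [hB 2 (by norm_num)]
    have := InClone.comp (B := orBase) ⟨2, fun x => x 0 || x 1⟩ (Or.inl rfl) 2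
      (fun j x => x j) (fun j => InClone.proj 2 j)
    exact this
  obtain ⟨c, S, hS, h⟩ := key _ hor
  have h00 := h (fun _ => false)
  have h10 := h (fun i => decide (i = 0))
  have h01 := h (fun i => decide (i = 1))
  simp only at h00 h10 h01
  have hc : ¬ c = true := by
    intro hc
    have := h00.2 (Or.inl hc)
    simp at this
  have a0 : (0 : Fin 2) ∈ S := by
    rcases h10.1 (by simp) with h | ⟨j, hj, h⟩
    · exact absurd h hc
    · have : j = 0 := by simpa using h
      rwa [this] at hj
  have a1 : (1 : Fin 2) ∈ S := by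
    rcases h01.1 (by simp) with h | ⟨j, hj, h⟩
    · exact absurd h hc
    · have : j = 1 := by simpa using h
      rwa [this] at hj
  have := hS a0 a1
  simp at this

/-- A true formula without `□`. -/
theorem exists_top {B : Finset BoolFun} (hB : CloneIsV (B : Set BoolFun)) :
    ∃ T : Form B, BoxFree T ∧ ∀ (W : Type) (M : Model W) (g : ℕ → W) (w : W), Sat M T g w := by
  classical
  have h : InClone (B : Set BoolFun) ⟨1, fun _ => true⟩ := by
    rw [hB 1 one_pos]
    exact InClone.comp (B := orBase) ⟨0, fun _ => true⟩ (Or.inr (Or.inr rfl)) 1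
      (fun j => j.elim0) (fun j => j.elim0)
  obtain ⟨T, hT1, hT2⟩ := exists_term rfl h (fun _ => Form.atom 0) (fun _ => trivial)
  refine ⟨T, hT1, fun W M g w => ?_⟩
  rw [hT2 W M g w (fun _ => decide (M.V 0 w)) (fun j => by simp [Sat])]

theorem exists_replacement {B : Finset BoolFun} (hB : CloneIsV (B : Set BoolFun)) :
    ∃ (u : List (Sym B)) (r : Form B → Form B),
      (∀ φ, BoxFree (r φ)) ∧
      (∀ φ, word (r φ) = (word φ).flatMap (replaceBox u)) ∧
      (∀ φ, Good (r φ) ↔ Good φ) := by
  classical
  obtain ⟨T, hT1, hT2⟩ := exists_top hB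
  obtain ⟨⟨n, f⟩, hf, i, j, hij, hfij⟩ := exists_binary hB
  have hfB : (⟨n, f⟩ : BoolFun) ∈ B := Finset.mem_coe.1 hf
  obtain ⟨k, rfl⟩ : ∃ k, n = k + 1 := ⟨n - 1, by have := i.2; simp only at this; omega⟩
  -- an essential argument different from the last one
  obtain ⟨i₀, hi₀, hi₀f⟩ : ∃ i₀ : Fin (k + 1), i₀ ≠ Fin.last k ∧
      ∀ x : Fin (k + 1) → Bool, x i₀ = true → f x = true := by
    by_cases h : i = Fin.last k
    · refine ⟨j, fun h' => hij (h.trans h'.symm), fun x hx => hfij x (Or.inr hx)⟩
    · exact ⟨i, h, fun x hx => hfij x (Or.inl hx)⟩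
  let mk : Form B → Form B := fun ψ =>
    .app ⟨k + 1, f⟩ hfB (fun l : Fin (k + 1) => if l = Fin.last k then ψ else T)
  let r : Form B → Form B := fun φ => Form.rec (motive := fun _ => Form B)
    (fun k => .atom k) (fun k => .nom k) (fun k => .svar k)
    (fun f hf _ ih => .app f hf ih) (fun _ ih => .dia ih) (fun _ ih => mk ih)
    (fun x _ ih => .down x ih) φ
  have hflat : ∀ ψ : Form B, word (mk ψ) =
      (Sym.conn ⟨k + 1, f⟩ hfB :: (List.replicate k (word T)).flatten) ++ word ψ := by
    intro ψ
    simp only [mk, word]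
    rw [List.ofFn_succ']
    simp only [List.concat_eq_append, List.flatten_append, List.cons_append, List.cons.injEq,
      true_and]
    congr 1
    · congr 1
      apply List.ext_get
      · simp
      · intro a h1 h2
        simp only [List.get_eq_getElem, List.getElem_ofFn, List.getElem_replicate]
        rw [if_neg]
        exact Fin.ne_of_lt (Fin.castSucc_lt_last _)
    · simp
  refine ⟨Sym.conn ⟨k + 1, f⟩ hfB :: (List.replicate k (word T)).flatten, r, ?_, ?_, ?_⟩
  · intro φ
    induction φ with
    | atom k => trivial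
    | nom k => trivial
    | svar k => trivial
    | app f hf args ih => exact ih
    | dia φ ih => exact ih
    | box φ ih =>
      change BoxFree (mk (r φ))
      intro l
      by_cases hl : l = Fin.last k
      · simp only [hl, if_true]; exact ih
      · simp only [hl, if_false]; exact hT1
    | down x φ ih => exact ih
  · have hbits : ∀ (x : ℕ) (u : List (Sym B)), (bits x : List (Sym B)).flatMap
        (replaceBox u) = bits x := by
      intro x u
      unfold bits
      induction Nat.bits x with
      | nil => rfl
      | cons a l ih => simpa [replaceBox] using ih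
    intro φ
    induction φ with
    | atom k => simp only [r, word, List.flatMap_cons, hbits]; rfl
    | nom k => simp only [r, word, List.flatMap_cons, hbits]; rfl
    | svar k => simp only [r, word, List.flatMap_cons, hbits]; rfl
    | app f hf args ih =>
      change word (.app f hf (fun j => r (args j))) = _
      simp only [word, List.flatMap_cons, replaceBox, List.singleton_append, List.cons.injEq,
        true_and]
      rw [flatMap_flatten', List.map_ofFn]
      congr 2
      funext j
      exact ih j
    | dia φ ih =>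
      change word (.dia (r φ)) = _
      simp only [word, List.flatMap_cons, replaceBox, List.singleton_append, List.cons.injEq,
        true_and]
      exact ih
    | box φ ih =>
      change word (mk (r φ)) = _
      rw [hflat, ih]
      simp only [word, List.flatMap_cons, replaceBox]
    | down x φ ih =>
      change word (.down x (r φ)) = _
      simp only [word, List.flatMap_cons, replaceBox, List.singleton_append, List.cons.injEq,
        true_and, List.flatMap_append, hbits]
      rw [ih]
  · intro φ
    induction φ with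
    | atom k => exact Iff.rfl
    | nom k => exact Iff.rfl
    | svar k => exact Iff.rfl
    | app f hf args ih =>
      change (∃ b : Fin f.1 → Bool, (∀ j, b j = true → Good (r (args j))) ∧ f.2 b = true) ↔
        (∃ b : Fin f.1 → Bool, (∀ j, b j = true → Good (args j)) ∧ f.2 b = true)
      simp only [ih]
    | dia φ ih => exact ih
    | box φ ih =>
      change Good (mk (r φ)) ↔ True
      simp only [iff_true]
      refine ⟨fun l => decide (l = i₀), fun l hl => ?_, hi₀f _ (by simp)⟩
      have hl' : l = i₀ := by simpa using hl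
      have hl2 : l ≠ Fin.last k := hl' ▸ hi₀
      change Good (if l = Fin.last k then r φ else T)
      rw [if_neg hl2]
      exact good_of_sat onePoint T (fun _ => ()) () (hT2 _ _ _ _)
    | down x φ ih => exact ih

/-! ### Circuits -/

/-- The symbols that make a formula satisfiable. -/
def Live {B : Finset BoolFun} : Sym B → Prop
  | .atom => True
  | .nom => True
  | .svar => True
  | .conn f _ => f.1 = 0 ∧ ∀ x, f.2 x = true
  | .dia => False
  | .box => True
  | .down => False
  | .bit _ => False

theorem apply_iff_of_noFictitious {B : Set BoolFun} (hB : CloneIsV B) (hN : NoFictitious B)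
    {f : BoolFun} (hf : f ∈ B) (x : Fin f.1 → Bool) :
    f.2 x = true ↔ (∃ j, x j = true) ∨ (f.1 = 0 ∧ ∀ y, f.2 y = true) := by
  obtain ⟨c, S, hS⟩ := vform_of_mem hB hf
  have hess := hN f hf
  have hSall : ∀ j, c = false ∧ j ∈ S := by
    intro j
    obtain ⟨y, z, hyz, hne⟩ := hess j
    constructor
    · by_contra hc
      have hc' : c = true := by simpa using hc
      apply hne
      rw [(hS y).2 (Or.inl hc'), (hS z).2 (Or.inl hc')]
    · by_contra hj
      apply hne
      rw [Bool.eq_iff_iff, hS, hS]
      have : ∀ i ∈ S, y i = z i := fun i hi => hyz i (fun h => hj (h ▸ hi))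
      constructor
      · rintro (h | ⟨i, hi, h⟩)
        · exact Or.inl h
        · exact Or.inr ⟨i, hi, (this i hi) ▸ h⟩
      · rintro (h | ⟨i, hi, h⟩)
        · exact Or.inl h
        · exact Or.inr ⟨i, hi, (this i hi).symm ▸ h⟩
  constructor
  · intro h
    rcases (hS x).1 h with hc | ⟨j, _, hj⟩
    · right
      have hn : f.1 = 0 := by
        by_contra hn
        have := (hSall ⟨0, Nat.pos_of_ne_zero hn⟩).1
        rw [this] at hc
        exact absurd hc (by simp)
      exact ⟨hn, fun y => (hS y).2 (Or.inl hc)⟩
    · exact Or.inl ⟨j, hj⟩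
  · rintro (⟨j, hj⟩ | ⟨_, h⟩)
    · exact (hS x).2 (Or.inr ⟨j, (hSall j).2, hj⟩)
    · exact h x

theorem good_iff_live {B : Finset BoolFun} (hB : CloneIsV (B : Set BoolFun))
    (hN : NoFictitious (B : Set BoolFun)) (φ : Form B) :
    Good φ ↔ ∃ s ∈ word φ, Live s := by
  have hbits : ∀ x : ℕ, ¬ ∃ s ∈ (bits x : List (Sym B)), Live s := by
    rintro x ⟨s, hs, h⟩
    simp only [bits, List.mem_map] at hs
    obtain ⟨b, _, rfl⟩ := hs
    exact h
  classical
  induction φ with
  | atom k => exact iff_of_true trivial ⟨Sym.atom, by simp [word], trivial⟩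
  | nom k => exact iff_of_true trivial ⟨Sym.nom, by simp [word], trivial⟩
  | svar k => exact iff_of_true trivial ⟨Sym.svar, by simp [word], trivial⟩
  | app f hf args ih =>
    have key : Good (.app f hf args) ↔ (∃ j, Good (args j)) ∨ (f.1 = 0 ∧ ∀ y, f.2 y = true) := by
      constructor
      · rintro ⟨b, hb, h⟩
        rcases (apply_iff_of_noFictitious hB hN (Finset.mem_coe.2 hf) b).1 h with ⟨j, hj⟩ | h
        · exact Or.inl ⟨j, hb j hj⟩
        · exact Or.inr h
      · rintro (⟨j, hj⟩ | h)
        · refine ⟨fun i => decide (i = j), fun i hi => ?_, ?_⟩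
          · have : i = j := by simpa using hi
            rw [this]; exact hj
          · exact (apply_iff_of_noFictitious hB hN (Finset.mem_coe.2 hf) _).2
              (Or.inl ⟨j, by simp⟩)
        · exact ⟨fun _ => false, fun i hi => by simp at hi, h.2 _⟩
    rw [key]
    simp only [ih, word, List.mem_cons, List.mem_flatten, List.mem_ofFn]
    constructor
    · rintro (⟨j, s, hs, h⟩ | h)
      · exact ⟨s, Or.inr ⟨_, ⟨j, rfl⟩, hs⟩, h⟩
      · exact ⟨_, Or.inl rfl, h⟩
    · rintro ⟨s, rfl | ⟨_, ⟨j, rfl⟩, hs⟩, h⟩
      · exact Or.inr h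
      · exact Or.inl ⟨j, s, hs, h⟩
  | dia φ ih =>
    simp only [Good, ih, word, List.mem_cons]
    constructor
    · rintro ⟨s, hs, h⟩; exact ⟨s, Or.inr hs, h⟩
    · rintro ⟨s, rfl | hs, h⟩
      · exact absurd h id
      · exact ⟨s, hs, h⟩
  | box φ ih => exact iff_of_true trivial ⟨Sym.box, by simp [word], trivial⟩
  | down x φ ih =>
    simp only [Good, ih, word, List.mem_cons, List.mem_append]
    constructor
    · rintro ⟨s, hs, h⟩; exact ⟨s, Or.inr (Or.inr hs), h⟩
    · rintro ⟨s, rfl | hs | hs, h⟩
      · exact absurd h id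
      · exact absurd ⟨s, hs, h⟩ (hbits x)
      · exact ⟨s, hs, h⟩

theorem length_blocks {α : Type} {m : ℕ} (code : α → Fin m → Bool) (w : List α) :
    (w.flatMap (fun s => List.ofFn (code s))).length = w.length * m := by
  induction w with
  | nil => simp
  | cons a w ih => simp [ih, Nat.add_mul, Nat.add_comm]

theorem get_blocks {α : Type} {m : ℕ} (code : α → Fin m → Bool) (w : List α) (t : ℕ)
    (ht : t < w.length) (j : Fin m) :
    (w.flatMap (fun s => List.ofFn (code s)))[t * m + j]? = some (code w[t] j) := by
  induction w generalizing t with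
  | nil => simp at ht
  | cons a w ih =>
    rw [List.flatMap_cons]
    rcases t with _ | t
    · rw [List.getElem?_append_left (by simp)]
      simp
    · rw [List.getElem?_append_right (by simp [Nat.add_mul]; omega)]
      have h1 : (t + 1) * m + (j : ℕ) - (List.ofFn (code a)).length = t * m + j := by
        simp [Nat.add_mul]; omega
      rw [h1, ih t (by simpa using ht)]
      simp

instance {B : Finset BoolFun} : Finite (Sym B) := by
  classical
  have : Function.Surjective (fun x : Fin 6 ⊕ {f : BoolFun // f ∈ B} ⊕ Bool =>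
      (match x with
      | .inl 0 => Sym.atom
      | .inl 1 => Sym.nom
      | .inl 2 => Sym.svar
      | .inl 3 => Sym.dia
      | .inl 4 => Sym.box
      | .inl 5 => Sym.down
      | .inr (.inl f) => Sym.conn f.1 f.2
      | .inr (.inr b) => Sym.bit b : Sym B)) := by
    rintro (_ | _ | _ | ⟨f, hf⟩ | _ | _ | _ | b)
    · exact ⟨.inl 0, rfl⟩
    · exact ⟨.inl 1, rfl⟩
    · exact ⟨.inl 2, rfl⟩
    · exact ⟨.inr (.inl ⟨f, hf⟩), rfl⟩
    · exact ⟨.inl 3, rfl⟩
    · exact ⟨.inl 4, rfl⟩
    · exact ⟨.inl 5, rfl⟩
    · exact ⟨.inr (.inr b), rfl⟩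
  exact Finite.of_surjective _ this

theorem inAC0_of_live {B : Finset BoolFun} {m : ℕ} (code : Sym B → Fin m → Bool)
    (hcode : Function.Injective code) (P : Form B → Prop)
    (hP : ∀ φ, P φ ↔ ∃ s ∈ word φ, Live s) : InAC0 code P := by
  classical
  obtain ⟨K, ⟨e⟩⟩ := Finite.exists_equiv_fin {s : Sym B // Live s}
  have hm : 0 < m := by
    by_contra hm
    have hm0 : m = 0 := by omega
    subst hm0
    have := hcode (Subsingleton.elim (code Sym.atom) (code Sym.nom))
    cases this
  let C : ∀ n : ℕ, Circuit n := fun n => .or n (fun t =>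
    if h : ((t : ℕ) + 1) * m ≤ n then
      .or K (fun q => .and m (fun j => .lit ⟨(t : ℕ) * m + j, by
        have := j.2
        rw [Nat.add_mul] at h
        omega⟩ (code (e.symm q).1 j)))
    else .or 0 (fun q => q.elim0))
  refine ⟨3, 1 + Polynomial.X * Polynomial.C (1 + K * (1 + m)), fun n => ⟨C n, ?_, ?_, ?_⟩⟩
  · simp only [C, Circuit.depth]
    have : ∀ t : Fin n, (if h : ((t : ℕ) + 1) * m ≤ n then
      (.or K (fun q => .and m (fun j => .lit ⟨(t : ℕ) * m + j, by
        have := j.2
        rw [Nat.add_mul] at h
        omega⟩ (code (e.symm q).1 j))) : Circuit n)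
      else .or 0 (fun q => q.elim0)).depth ≤ 2 := by
      intro t
      split_ifs with h
      · simp only [Circuit.depth]
        have : Finset.univ.sup (fun _ : Fin K => 1 + Finset.univ.sup (fun _ : Fin m => 0)) ≤ 1 := by
          apply Finset.sup_le
          intro q _
          simp
        omega
      · simp [Circuit.depth]
    have h2 := Finset.sup_le (s := Finset.univ) (fun t _ => this t)
    omega
  · simp only [C, Circuit.size]
    have : ∀ t : Fin n, (if h : ((t : ℕ) + 1) * m ≤ n then
      (.or K (fun q => .and m (fun j => .lit ⟨(t : ℕ) * m + j, by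
        have := j.2
        rw [Nat.add_mul] at h
        omega⟩ (code (e.symm q).1 j))) : Circuit n)
      else .or 0 (fun q => q.elim0)).size ≤ 1 + K * (1 + m) := by
      intro t
      split_ifs with h
      · simp [Circuit.size]
      · simp [Circuit.size]
    have h2 := Finset.sum_le_sum (s := Finset.univ) (fun t _ => this t)
    simp only [Finset.sum_const, Finset.card_univ, Fintype.card_fin, smul_eq_mul] at h2
    simp only [Polynomial.eval_add, Polynomial.eval_one, Polynomial.eval_mul, Polynomial.eval_X,
      Polynomial.eval_C]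
    omega
  · intro φ hlen
    rw [hP φ]
    have hlen' : (word φ).length * m = n := by
      rw [← hlen]; exact (length_blocks code (word φ)).symm
    have hget : ∀ (t : ℕ) (ht : t < (word φ).length) (j : Fin m) (hi : t * m + j < n),
        (encode code φ).get ((⟨t * m + j, hi⟩ : Fin n).cast hlen.symm) = code (word φ)[t] j := by
      intro t ht j hi
      have h1 := get_blocks code (word φ) t ht j
      rw [List.getElem?_eq_some_iff] at h1
      obtain ⟨h2, h3⟩ := h1
      exact h3
    simp only [C, Circuit.Eval]
    constructor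
    · rintro ⟨t, ht⟩
      split_ifs at ht with h
      · simp only [Circuit.Eval] at ht
        obtain ⟨q, hq⟩ := ht
        have htl : (t : ℕ) < (word φ).length := by
          have h' := h.trans hlen'.ge
          exact Nat.lt_of_succ_le (Nat.le_of_mul_le_mul_right h' hm)
        refine ⟨(word φ)[(t : ℕ)], List.getElem_mem _, ?_⟩
        have : code (word φ)[(t : ℕ)] = code (e.symm q).1 := by
          funext j
          rw [← hq j]
          exact (hget t htl j _).symm
        rw [hcode this]
        exact (e.symm q).2
      · simp only [Circuit.Eval] at ht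
        obtain ⟨q, _⟩ := ht
        exact q.elim0
    · rintro ⟨s, hs, hlive⟩
      obtain ⟨t, ht, rfl⟩ := List.getElem_of_mem hs
      have h : (t + 1) * m ≤ n := by
        rw [← hlen']; exact Nat.mul_le_mul_right m ht
      have htn : t < n := by
        have : (t + 1) * 1 ≤ (t + 1) * m := Nat.mul_le_mul_left _ hm
        omega
      refine ⟨⟨t, htn⟩, ?_⟩
      rw [dif_pos h]
      simp only [Circuit.Eval]
      refine ⟨e ⟨_, hlive⟩, fun j => ?_⟩
      rw [Equiv.symm_apply_apply]
      exact hget t ht j _

end Pool.Agent.Lib.MP_ccbe9b_lc
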