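import Mathlib
import Pool.Agent.Lib.MP_ccbe9b_lc.Defs
import Pool.Agent.Lib.MP_ccbe9b_lc.Proofs

/-!
A letter substitution of constant length which removes the boxes, for every finite `B` with
`[B] = V`, and the transfer of circuits along it.
-/

set_option autoImplicit false

namespace Pool.Agent.Lib.MP_ccbe9b_lc

/-- The property `P` is decided, on encodings of those formulas that have the property `Q`, by
circuits of constant depth and polynomial size. -/
def InAC0On {B : Finset BoolFun} {m : ℕ} (code : Sym B → Fin m → Bool) (Q P : Form B → Prop) :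
    Prop :=
  ∃ (d : ℕ) (p : Polynomial ℕ), ∀ n : ℕ, ∃ C : Circuit n, C.depth ≤ d ∧ C.size ≤ p.eval n ∧
    ∀ φ : Form B, Q φ → ∀ h : (encode code φ).length = n,
      (C.Eval (fun i => (encode code φ).get (i.cast h.symm)) ↔ P φ)

/-! ### Binary numerals with repeated digits -/

theorem exists_bits_replicate (L : ℕ) (b : Bool) (k : ℕ) (h : k = 0 → b = true) :
    ∃ k', Nat.bits k' = List.replicate L b ++ Nat.bits k ∧ (k' = 0 → k = 0 ∧ L = 0) := by
  induction L with
  | zero => exact ⟨k, rfl, fun h => ⟨h, rfl⟩⟩
  | succ L ih =>
    obtain ⟨k', h1, h2⟩ := ih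
    refine ⟨Nat.bit b k', ?_, ?_⟩
    · rw [Nat.bits_append_bit k' b (fun h0 => h (h2 h0).1), h1, List.replicate_succ,
        List.cons_append]
    · intro h0
      exfalso
      rw [Nat.bit_eq_zero_iff] at h0
      have := h (h2 h0.1).1
      rw [h0.2] at this
      cases this

theorem exists_bits_flatMap (L : ℕ) (hL : 0 < L) (k : ℕ) :
    ∃ k', Nat.bits k' = (Nat.bits k).flatMap (fun b => List.replicate L b) ∧ (k' = 0 → k = 0) := by
  induction k using Nat.binaryRec' with
  | zero => exact ⟨0, by simp, fun _ => rfl⟩
  | bit b n h ih =>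
    obtain ⟨k', h1, h2⟩ := ih
    obtain ⟨k'', h3, h4⟩ := exists_bits_replicate L b k' (fun h0 => h (h2 h0))
    refine ⟨k'', ?_, fun h0 => ?_⟩
    · rw [h3, h1, Nat.bits_append_bit n b h, List.flatMap_cons]
    · have := (h4 h0).2
      omega

/-! ### Padding by `◇` -/

/-- `◇` applied `n` times. -/
def diaN {B : Finset BoolFun} : ℕ → Form B → Form B
  | 0, φ => φ
  | n + 1, φ => .dia (diaN n φ)

theorem word_diaN {B : Finset BoolFun} (n : ℕ) (φ : Form B) :
    word (diaN n φ) = List.replicate n Sym.dia ++ word φ := by
  induction n with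
  | zero => rfl
  | succ n ih => simp only [diaN, word, ih, List.replicate_succ, List.cons_append]

theorem boxFree_diaN {B : Finset BoolFun} (n : ℕ) (φ : Form B) :
    BoxFree (diaN n φ) ↔ BoxFree φ := by
  induction n with
  | zero => exact Iff.rfl
  | succ n ih => exact ih

theorem good_diaN {B : Finset BoolFun} (n : ℕ) (φ : Form B) : Good (diaN n φ) ↔ Good φ := by
  induction n with
  | zero => exact Iff.rfl
  | succ n ih => exact ih

/-- A satisfiable context without boxes that is prefixed to a formula. -/
theorem exists_mk {B : Finset BoolFun} (hB : CloneIsV (B : Set BoolFun)) :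
    ∃ (u : List (Sym B)) (mk : Form B → Form B), 0 < u.length ∧
      (∀ ψ, word (mk ψ) = u ++ word ψ) ∧ (∀ ψ, BoxFree ψ → BoxFree (mk ψ)) ∧
      ∀ ψ, Good (mk ψ) := by
  classical
  obtain ⟨T, hT1, hT2⟩ := exists_top hB
  obtain ⟨⟨n, f⟩, hf, i, j, hij, hfij⟩ := exists_binary hB
  have hfB : (⟨n, f⟩ : BoolFun) ∈ B := Finset.mem_coe.1 hf
  obtain ⟨k, rfl⟩ : ∃ k, n = k + 1 := ⟨n - 1, by have := i.2; simp only at this; omega⟩
  obtain ⟨i₀, hi₀, hi₀f⟩ : ∃ i₀ : Fin (k + 1), i₀ ≠ Fin.last k ∧
      ∀ x : Fin (k + 1) → Bool, x i₀ = true → f x = true := by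
    by_cases h : i = Fin.last k
    · refine ⟨j, fun h' => hij (h.trans h'.symm), fun x hx => hfij x (Or.inr hx)⟩
    · exact ⟨i, h, fun x hx => hfij x (Or.inl hx)⟩
  let mk : Form B → Form B := fun ψ =>
    .app ⟨k + 1, f⟩ hfB (fun l : Fin (k + 1) => if l = Fin.last k then ψ else T)
  refine ⟨Sym.conn ⟨k + 1, f⟩ hfB :: (List.replicate k (word T)).flatten, mk, by simp,
    fun ψ => ?_, fun ψ hψ => ?_, fun ψ => ?_⟩
  · simp only [mk, word]
    rw [List.ofFn_succ']
    simp only [List.concat_eq_append, List.flatten_append, List.cons_append, List.cons.injEq,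
      true_and]
    congr 1
    · congr 1
      apply List.ext_get
      · simp
      · intro a h1 h2
        simp only [List.get_eq_getElem, List.getElem_ofFn, List.getElem_replicate]
        rw [if_neg]
        exact Fin.ne_of_lt (Fin.castSucc_lt_last _)
    · simp
  · intro l
    by_cases hl : l = Fin.last k
    · simp only [hl, if_true]; exact hψ
    · simp only [hl, if_false]; exact hT1
  · refine ⟨fun l => decide (l = i₀), fun l hl => ?_, hi₀f _ (by simp)⟩
    have hl' : l = i₀ := by simpa using hl
    have hl2 : l ≠ Fin.last k := hl' ▸ hi₀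
    change Good (if l = Fin.last k then ψ else T)
    rw [if_neg hl2]
    exact good_of_sat onePoint T (fun _ => ()) () (hT2 _ _ _ _)

/-- The padded substitution. -/
def subst {B : Finset BoolFun} (u : List (Sym B)) : Sym B → List (Sym B)
  | .box => u
  | .atom => List.replicate (u.length - 1) .dia ++ [.atom]
  | .nom => List.replicate (u.length - 1) .dia ++ [.nom]
  | .svar => List.replicate (u.length - 1) .dia ++ [.svar]
  | .conn f hf => List.replicate (u.length - 1) .dia ++ [.conn f hf]
  | .dia => List.replicate (u.length - 1) .dia ++ [.dia]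
  | .down => List.replicate (u.length - 1) .dia ++ [.down]
  | .bit b => List.replicate u.length (.bit b)

theorem length_subst {B : Finset BoolFun} {u : List (Sym B)} (hu : 0 < u.length) (s : Sym B) :
    (subst u s).length = u.length := by
  cases s <;> simp [subst] <;> omega

theorem exists_uniform_list {B : Finset BoolFun} (hB : CloneIsV (B : Set BoolFun)) :
    ∃ (u : List (Sym B)) (r : Form B → Form B), 0 < u.length ∧
      (∀ φ, BoxFree (r φ)) ∧
      (∀ φ, word (r φ) = (word φ).flatMap (subst u)) ∧
      (∀ φ, Good (r φ) ↔ Good φ) := by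
  classical
  obtain ⟨u, mk, hu, hw, hbf, hgood⟩ := exists_mk hB
  choose κ hκ _ using fun k => exists_bits_flatMap u.length hu k
  have hbits : ∀ x : ℕ, (bits x : List (Sym B)).flatMap (subst u) = bits (κ x) := by
    intro x
    unfold bits
    rw [hκ, List.flatMap_map, List.map_flatMap]
    congr 1
    funext b
    simp [subst]
  let r : Form B → Form B := fun φ => Form.rec (motive := fun _ => Form B)
    (fun k => diaN (u.length - 1) (.atom (κ k))) (fun k => diaN (u.length - 1) (.nom (κ k)))
    (fun k => diaN (u.length - 1) (.svar (κ k)))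
    (fun f hf _ ih => diaN (u.length - 1) (.app f hf ih))
    (fun _ ih => diaN (u.length - 1) (.dia ih)) (fun _ ih => mk ih)
    (fun x _ ih => diaN (u.length - 1) (.down (κ x) ih)) φ
  refine ⟨u, r, hu, ?_, ?_, ?_⟩
  · intro φ
    induction φ with
    | atom k => exact (boxFree_diaN _ _).2 trivial
    | nom k => exact (boxFree_diaN _ _).2 trivial
    | svar k => exact (boxFree_diaN _ _).2 trivial
    | app f hf args ih => exact (boxFree_diaN _ _).2 ih
    | dia φ ih => exact (boxFree_diaN _ _).2 ih
    | box φ ih => exact hbf _ ih
    | down x φ ih => exact (boxFree_diaN _ _).2 ih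
  · intro φ
    induction φ with
    | atom k =>
      change word (diaN (u.length - 1) (.atom (κ k))) = _
      rw [word_diaN]
      simp only [word, List.flatMap_cons, hbits, subst, List.append_assoc, List.cons_append,
        List.nil_append]
    | nom k =>
      change word (diaN (u.length - 1) (.nom (κ k))) = _
      rw [word_diaN]
      simp only [word, List.flatMap_cons, hbits, subst, List.append_assoc, List.cons_append,
        List.nil_append]
    | svar k =>
      change word (diaN (u.length - 1) (.svar (κ k))) = _
      rw [word_diaN]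
      simp only [word, List.flatMap_cons, hbits, subst, List.append_assoc, List.cons_append,
        List.nil_append]
    | app f hf args ih =>
      change word (diaN (u.length - 1) (.app f hf (fun j => r (args j)))) = _
      rw [word_diaN]
      simp only [word, List.flatMap_cons, subst, List.append_assoc, List.cons_append,
        List.nil_append]
      rw [flatMap_flatten', List.map_ofFn]
      congr 4
      funext j
      exact ih j
    | dia φ ih =>
      change word (diaN (u.length - 1) (.dia (r φ))) = _
      rw [word_diaN]
      simp only [word, List.flatMap_cons, subst, List.append_assoc, List.cons_append,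
        List.nil_append, ih]
    | box φ ih =>
      change word (mk (r φ)) = _
      rw [hw, ih]
      simp only [word, List.flatMap_cons, subst]
    | down x φ ih =>
      change word (diaN (u.length - 1) (.down (κ x) (r φ))) = _
      rw [word_diaN]
      simp only [word, List.flatMap_cons, subst, List.append_assoc, List.cons_append,
        List.nil_append, List.flatMap_append, hbits, ih]
  · intro φ
    induction φ with
    | atom k => exact (good_diaN _ _).trans Iff.rfl
    | nom k => exact (good_diaN _ _).trans Iff.rfl
    | svar k => exact (good_diaN _ _).trans Iff.rfl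
    | app f hf args ih =>
      refine (good_diaN _ _).trans ?_
      change (∃ b : Fin f.1 → Bool, (∀ j, b j = true → Good (r (args j))) ∧ f.2 b = true) ↔
        (∃ b : Fin f.1 → Bool, (∀ j, b j = true → Good (args j)) ∧ f.2 b = true)
      simp only [ih]
    | dia φ ih => exact (good_diaN _ _).trans ih
    | box φ ih =>
      change Good (mk (r φ)) ↔ True
      simp only [iff_true]
      exact hgood _
    | down x φ ih => exact (good_diaN _ _).trans ih

/-- The uniform substitution, with words of length `L` as functions on `Fin L`. -/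
theorem exists_uniform {B : Finset BoolFun} (hB : CloneIsV (B : Set BoolFun)) :
    ∃ (L : ℕ) (ρ : Sym B → Fin L → Sym B) (r : Form B → Form B), 0 < L ∧
      (∀ φ, BoxFree (r φ)) ∧
      (∀ φ, word (r φ) = (word φ).flatMap (fun s => List.ofFn (ρ s))) ∧
      (∀ φ, Good (r φ) ↔ Good φ) := by
  obtain ⟨u, r, hu, h1, h2, h3⟩ := exists_uniform_list hB
  refine ⟨u.length, fun s i => (subst u s).get (i.cast (length_subst hu s).symm), r, hu, h1,
    fun φ => ?_, h3⟩
  rw [h2]
  congr 1
  funext s
  apply List.ext_get
  · simp [length_subst hu s]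
  · intro a ha hb
    simp

/-! ### Transfer of circuits -/

/-- Replace the literals of a circuit by circuits. -/
def Circuit.plug {n n' : ℕ} (S : Fin n' → Bool → Circuit n) : Circuit n' → Circuit n
  | .lit i b => S i b
  | .and k c => .and k (fun j => (c j).plug S)
  | .or k c => .or k (fun j => (c j).plug S)

theorem Circuit.depth_plug {n n' : ℕ} {S : Fin n' → Bool → Circuit n} {D : ℕ}
    (hS : ∀ i b, (S i b).depth ≤ D) (C : Circuit n') : (C.plug S).depth ≤ C.depth + D := by
  induction C with
  | lit i b => simpa [Circuit.plug, Circuit.depth] using hS i b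
  | and k c ih =>
    simp only [Circuit.plug, Circuit.depth]
    have : Finset.univ.sup (fun j => ((c j).plug S).depth) ≤
        Finset.univ.sup (fun j => (c j).depth) + D := by
      apply Finset.sup_le
      intro j _
      exact (ih j).trans (Nat.add_le_add_right
        (Finset.le_sup (f := fun j => (c j).depth) (Finset.mem_univ j)) D)
    omega
  | or k c ih =>
    simp only [Circuit.plug, Circuit.depth]
    have : Finset.univ.sup (fun j => ((c j).plug S).depth) ≤
        Finset.univ.sup (fun j => (c j).depth) + D := by
      apply Finset.sup_le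
      intro j _
      exact (ih j).trans (Nat.add_le_add_right
        (Finset.le_sup (f := fun j => (c j).depth) (Finset.mem_univ j)) D)
    omega

theorem Circuit.size_plug {n n' : ℕ} {S : Fin n' → Bool → Circuit n} {M : ℕ}
    (hM : 1 ≤ M) (hS : ∀ i b, (S i b).size ≤ M) (C : Circuit n') :
    (C.plug S).size ≤ C.size * M := by
  induction C with
  | lit i b => simpa [Circuit.plug, Circuit.size] using hS i b
  | and k c ih =>
    simp only [Circuit.plug, Circuit.size]
    have := Finset.sum_le_sum (s := Finset.univ) (fun j _ => ih j)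
    rw [← Finset.sum_mul] at this
    rw [Nat.add_mul, Nat.one_mul]
    exact Nat.add_le_add hM this
  | or k c ih =>
    simp only [Circuit.plug, Circuit.size]
    have := Finset.sum_le_sum (s := Finset.univ) (fun j _ => ih j)
    rw [← Finset.sum_mul] at this
    rw [Nat.add_mul, Nat.one_mul]
    exact Nat.add_le_add hM this

theorem Circuit.eval_plug {n n' : ℕ} {S : Fin n' → Bool → Circuit n} {x : Fin n → Bool}
    {x' : Fin n' → Bool} (hS : ∀ i b, (S i b).Eval x ↔ x' i = b) (C : Circuit n') :
    (C.plug S).Eval x ↔ C.Eval x' := by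
  induction C with
  | lit i b => exact hS i b
  | and k c ih =>
    simp only [Circuit.plug, Circuit.Eval]
    exact forall_congr' ih
  | or k c ih =>
    simp only [Circuit.plug, Circuit.Eval]
    exact exists_congr ih

theorem length_blocks' {α β : Type} {m : ℕ} (code : α → Fin m → β) (w : List α) :
    (w.flatMap (fun s => List.ofFn (code s))).length = w.length * m := by
  induction w with
  | nil => simp
  | cons a w ih => simp [ih, Nat.add_mul, Nat.add_comm]

theorem get_blocks' {α β : Type} {m : ℕ} (code : α → Fin m → β) (w : List α) (t : ℕ)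
    (ht : t < w.length) (j : Fin m) :
    (w.flatMap (fun s => List.ofFn (code s)))[t * m + j]? = some (code w[t] j) := by
  induction w generalizing t with
  | nil => simp at ht
  | cons a w ih =>
    rw [List.flatMap_cons]
    rcases t with _ | t
    · rw [List.getElem?_append_left (by simp)]
      simp
    · rw [List.getElem?_append_right (by simp [Nat.add_mul]; omega)]
      have h1 : (t + 1) * m + (j : ℕ) - (List.ofFn (code a)).length = t * m + j := by
        simp [Nat.add_mul]; omega
      rw [h1, ih t (by simpa using ht)]
      simp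

/-- Circuits for the box-free formulas give circuits for all formulas. -/
theorem inAC0_of_boxFree {B : Finset BoolFun} (hB : CloneIsV (B : Set BoolFun)) {m : ℕ}
    (code : Sym B → Fin m → Bool) (hcode : Function.Injective code) (P : Form B → Prop)
    (hP : ∀ φ ψ : Form B, (Good φ ↔ Good ψ) → (P φ ↔ P ψ)) (h : InAC0On code BoxFree P) :
    InAC0 code P := by
  classical
  obtain ⟨L, ρ, r, hL, hr1, hr2, hr3⟩ := exists_uniform hB
  obtain ⟨d, p, hC⟩ := h
  obtain ⟨K, ⟨e⟩⟩ := Finite.exists_equiv_fin (Sym B)
  have hm : 0 < m := by
    by_contra hm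
    have hm0 : m = 0 := by omega
    subst hm0
    have := hcode (Subsingleton.elim (code Sym.atom) (code Sym.nom))
    cases this
  -- the circuit that computes one bit of the new word
  let S : ∀ n : ℕ, Fin (n * L) → Bool → Circuit n := fun n i b =>
    if h : ((i : ℕ) / m / L + 1) * m ≤ n then
      .or K (fun q =>
        if code (ρ (e.symm q) ⟨(i : ℕ) / m % L, Nat.mod_lt _ hL⟩) ⟨(i : ℕ) % m, Nat.mod_lt _ hm⟩
          = b then
          .and m (fun j => .lit ⟨(i : ℕ) / m / L * m + j, by
            have := j.2
            rw [Nat.add_mul] at h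
            omega⟩ (code (e.symm q) j))
        else .or 0 (fun q => q.elim0))
    else .or 0 (fun q => q.elim0)
  have hSd : ∀ n i b, (S n i b).depth ≤ 2 := by
    intro n i b
    simp only [S]
    split_ifs with h
    · simp only [Circuit.depth]
      have : Finset.univ.sup (fun q : Fin K => (if code (ρ (e.symm q)
          ⟨(i : ℕ) / m % L, Nat.mod_lt _ hL⟩) ⟨(i : ℕ) % m, Nat.mod_lt _ hm⟩ = b then
          (.and m (fun j => .lit ⟨(i : ℕ) / m / L * m + j, by
            have := j.2
            rw [Nat.add_mul] at h
            omega⟩ (code (e.symm q) j)) : Circuit n)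
        else .or 0 (fun q => q.elim0)).depth) ≤ 1 := by
        apply Finset.sup_le
        intro q _
        split_ifs <;> simp [Circuit.depth]
      omega
    · simp [Circuit.depth]
  have hSs : ∀ n i b, (S n i b).size ≤ 1 + K * (1 + m) := by
    intro n i b
    simp only [S]
    split_ifs with h
    · simp only [Circuit.size]
      have : ∀ q : Fin K, (if code (ρ (e.symm q)
          ⟨(i : ℕ) / m % L, Nat.mod_lt _ hL⟩) ⟨(i : ℕ) % m, Nat.mod_lt _ hm⟩ = b then
          (.and m (fun j => .lit ⟨(i : ℕ) / m / L * m + j, by
            have := j.2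
            rw [Nat.add_mul] at h
            omega⟩ (code (e.symm q) j)) : Circuit n)
        else .or 0 (fun q => q.elim0)).size ≤ 1 + m := by
        intro q
        split_ifs <;> simp [Circuit.size]
      have h2 := Finset.sum_le_sum (s := Finset.univ) (fun q _ => this q)
      simp only [Finset.sum_const, Finset.card_univ, Fintype.card_fin, smul_eq_mul] at h2
      omega
    · simp [Circuit.size]
  refine ⟨d + 2, (p.comp (Polynomial.X * Polynomial.C L)) * Polynomial.C (1 + K * (1 + m)),
    fun n => ?_⟩
  obtain ⟨C, hC1, hC2, hC3⟩ := hC (n * L)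
  refine ⟨C.plug (S n), ?_, ?_, ?_⟩
  · have := Circuit.depth_plug (hSd n) C
    omega
  · refine (Circuit.size_plug (by omega) (hSs n) C).trans ?_
    rw [Polynomial.eval_mul, Polynomial.eval_C, Polynomial.eval_comp, Polynomial.eval_mul,
      Polynomial.eval_X, Polynomial.eval_C]
    exact Nat.mul_le_mul_right _ hC2
  · intro φ hlen
    have hwl : (word φ).length * m = n := by
      rw [← hlen]; exact (length_blocks code (word φ)).symm
    have hwl' : (word (r φ)).length = (word φ).length * L := by
      rw [hr2]; exact length_blocks' ρ (word φ)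
    have hlen' : (encode code (r φ)).length = n * L := by
      have : (encode code (r φ)).length = (word (r φ)).length * m :=
        length_blocks code (word (r φ))
      rw [this, hwl', ← hwl]; ring
    rw [← hP (r φ) φ (hr3 φ), ← hC3 (r φ) (hr1 φ) hlen']
    apply Circuit.eval_plug
    intro i b
    -- coordinates of the bit `i`
    have hi := i.2
    have hu : (i : ℕ) / m < (word φ).length * L := by
      rw [Nat.div_lt_iff_lt_mul hm]
      calc (i : ℕ) < n * L := hi
        _ = (word φ).length * L * m := by rw [← hwl]; ring
    have ht : (i : ℕ) / m / L < (word φ).length := by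
      rw [Nat.div_lt_iff_lt_mul hL]; exact hu
    have htn : ((i : ℕ) / m / L + 1) * m ≤ n := by
      exact (Nat.mul_le_mul_right m ht).trans hwl.le
    have hbit : (encode code (r φ)).get (i.cast hlen'.symm) =
        code (ρ (word φ)[(i : ℕ) / m / L] ⟨(i : ℕ) / m % L, Nat.mod_lt _ hL⟩)
          ⟨(i : ℕ) % m, Nat.mod_lt _ hm⟩ := by
      have hu' : (i : ℕ) / m < (word (r φ)).length := by rw [hwl']; exact hu
      have h1 := get_blocks code (word (r φ)) ((i : ℕ) / m) hu' ⟨(i : ℕ) % m, Nat.mod_lt _ hm⟩
      have h2 := get_blocks' ρ (word φ) ((i : ℕ) / m / L) ht ⟨(i : ℕ) / m % L, Nat.mod_lt _ hL⟩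
      rw [← hr2] at h2
      have h3 : (i : ℕ) / m / L * L + (i : ℕ) / m % L = (i : ℕ) / m := Nat.div_add_mod' _ _
      have h4 : (i : ℕ) / m * m + (i : ℕ) % m = (i : ℕ) := Nat.div_add_mod' _ _
      simp only [h3, h4] at h1 h2
      rw [List.getElem?_eq_some_iff] at h1 h2
      obtain ⟨h5, h6⟩ := h1
      obtain ⟨h7, h8⟩ := h2
      rw [← h8]
      exact h6
    have hget : ∀ (j : Fin m) (hi : (i : ℕ) / m / L * m + j < n),
        (encode code φ).get ((⟨(i : ℕ) / m / L * m + j, hi⟩ : Fin n).cast hlen.symm) =
          code (word φ)[(i : ℕ) / m / L] j := by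
      intro j hi
      have h1 := get_blocks code (word φ) _ ht j
      rw [List.getElem?_eq_some_iff] at h1
      obtain ⟨h2, h3⟩ := h1
      exact h3
    rw [hbit]
    simp only [S]
    rw [dif_pos htn]
    simp only [Circuit.Eval]
    constructor
    · rintro ⟨q, hq⟩
      split_ifs at hq with hqb
      · simp only [Circuit.Eval] at hq
        have : code (word φ)[(i : ℕ) / m / L] = code (e.symm q) := by
          funext j
          rw [← hq j]
          exact (hget j _).symm
        rw [hcode this]
        exact hqb
      · simp only [Circuit.Eval] at hq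
        obtain ⟨q, _⟩ := hq
        exact q.elim0
    · intro hb
      refine ⟨e (word φ)[(i : ℕ) / m / L], ?_⟩
      rw [Equiv.symm_apply_apply, if_pos hb]
      simp only [Circuit.Eval]
      intro j
      exact hget j _

end Pool.Agent.Lib.MP_ccbe9b_lc
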